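import Pool.Agent.Lib.MP_7f581e_U.H.Spec1

/-!
MP_7f581e, U/H, module AuX: generators of `k(f)` are Moebius transforms of `f`.
-/

set_option autoImplicit false

namespace MP7U

open Polynomial IntermediateField

theorem hAuX : AuXStmt := by
  intro k _ f g hf hg hfg
  have hf' : ¬ ∃ c, f = RatFunc.C c := fun ⟨c, hc⟩ => hf c hc
  have htr := RatFunc.transcendental_of_ne_C f hf'
  set e := RatFunc.algEquivOfTranscendental f htr with he
  set G : RatFunc k := e.symm ⟨g, hg⟩ with hG
  have heG : ((e G : k⟮f⟯) : RatFunc k) = g := by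
    rw [hG, AlgEquiv.apply_symm_apply]
  have heX : ((e RatFunc.X : k⟮f⟯) : RatFunc k) = f := by
    rw [he, RatFunc.algEquivOfTranscendental_X]
  have hev : ∀ (u : RatFunc k) (r : k[X]), ((e (aeval u r) : k⟮f⟯) : RatFunc k) =
      aeval ((e u : k⟮f⟯) : RatFunc k) r := by
    intro u r
    have h1 : e (aeval u r) = aeval (e u) r := (aeval_algHom_apply e.toAlgHom u r).symm
    rw [h1]
    exact (aeval_algHom_apply (k⟮f⟯).val (e u) r).symm
  -- `k(G)` is everything
  have hXG : (RatFunc.X : RatFunc k) ∈ k⟮G⟯ := by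
    obtain ⟨r, s, hrs⟩ := (mem_adjoin_simple_iff k f).mp hfg
    rw [mem_adjoin_simple_iff]
    refine ⟨r, s, ?_⟩
    apply e.injective
    apply Subtype.ext
    rw [heX, map_div₀, IntermediateField.coe_div, hev, hev, heG]
    exact hrs
  have htop : k⟮G⟯ = ⊤ := by
    rw [eq_top_iff, ← RatFunc.adjoin_X]
    rw [adjoin_simple_le_iff]
    exact hXG
  have hdeg : max G.num.natDegree G.denom.natDegree = 1 := by
    rw [← RatFunc.finrank_eq_max_natDegree, htop]
    exact IntermediateField.finrank_top
  have hn1 : G.num.natDegree ≤ 1 := by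
    rw [← hdeg]
    exact le_max_left _ _
  have hd1 : G.denom.natDegree ≤ 1 := by
    rw [← hdeg]
    exact le_max_right _ _
  obtain ⟨a, b, hab⟩ : ∃ a b : k, G.num = C a * X + C b := exists_eq_X_add_C_of_natDegree_le_one hn1
  obtain ⟨c, d, hcd⟩ : ∃ c d : k, G.denom = C c * X + C d :=
    exists_eq_X_add_C_of_natDegree_le_one hd1
  have hcop := G.isCoprime_num_denom
  have hdet : a * d - b * c ≠ 0 := by
    intro h0
    have h1 : C a * G.denom = C c * G.num := by
      rw [hab, hcd]
      have h2 : (C (a * d - b * c) : k[X]) = 0 := by rw [h0, C_0]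
      rw [C_sub, C_mul, C_mul] at h2
      linear_combination h2
    by_cases ha : a = 0
    · have hc : c ≠ 0 := by
        rintro rfl
        rw [hab, hcd, ha, C_0, zero_mul, zero_add, zero_add, natDegree_C, natDegree_C] at hdeg
        simp at hdeg
      rw [ha, C_0, zero_mul] at h1
      have h3 : G.num = 0 := by
        rcases mul_eq_zero.mp h1.symm with h | h
        · exact absurd (C_eq_zero.mp h) hc
        · exact h
      rw [h3, isCoprime_zero_left] at hcop
      have h4 := natDegree_eq_zero_of_isUnit hcop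
      rw [hcd] at h4
      rw [natDegree_linear hc] at h4
      exact one_ne_zero h4
    · have h3 : G.num ∣ G.denom := by
        refine ⟨C (a⁻¹ * c), ?_⟩
        have h5 : (C a⁻¹ * C a : k[X]) = 1 := by rw [← C_mul, inv_mul_cancel₀ ha, C_1]
        calc G.denom = (C a⁻¹ * C a) * G.denom := by rw [h5, one_mul]
          _ = C a⁻¹ * (C c * G.num) := by rw [← h1]; ring
          _ = G.num * C (a⁻¹ * c) := by rw [C_mul]; ring
      have h4 : IsUnit G.num := hcop.isUnit_of_dvd' (dvd_refl _) h3
      have h5 := natDegree_eq_zero_of_isUnit h4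
      rw [hab, natDegree_linear ha] at h5
      exact one_ne_zero h5
  refine ⟨!![a, b; c, d], ?_, ?_, ?_⟩
  · rw [Matrix.det_fin_two_of]
    exact hdet
  · have h1 : aeval f G.denom ≠ 0 := by
      intro h0
      have h2 := (transcendental_iff.mp htr) G.denom h0
      exact RatFunc.denom_ne_zero G h2
    rw [hcd] at h1
    simpa using h1
  · have h1 : algebraMap k[X] (RatFunc k) G.denom * G = algebraMap k[X] (RatFunc k) G.num := by
      conv_lhs => rw [← RatFunc.num_div_denom G]
      rw [RatFunc.num_div_denom]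
      conv_lhs => rw [mul_comm]
      nth_rewrite 1 [← RatFunc.num_div_denom G]
      rw [div_mul_cancel₀]
      exact RatFunc.algebraMap_ne_zero (RatFunc.denom_ne_zero G)
    have h2 : ((e (algebraMap k[X] (RatFunc k) G.denom * G) : k⟮f⟯) : RatFunc k) =
        ((e (algebraMap k[X] (RatFunc k) G.num) : k⟮f⟯) : RatFunc k) := by rw [h1]
    rw [map_mul, IntermediateField.coe_mul, heG] at h2
    have h3 : ∀ r : k[X], ((e (algebraMap k[X] (RatFunc k) r) : k⟮f⟯) : RatFunc k) =
        aeval f r := by
      intro r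
      have h4 : algebraMap k[X] (RatFunc k) r = aeval (RatFunc.X : RatFunc k) r := by
        rw [RatFunc.aeval_X_left_eq_algebraMap]
      rw [h4, hev, heX]
    rw [h3, h3, hab, hcd] at h2
    simpa using h2

end MP7U
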