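import Pool.Agent.Lib.MP_7f581e_U.H.Spec1

/-!
MP_7f581e, U/H, module BsX: the base case, a group of Moebius transformations.
-/

set_option autoImplicit false

namespace MP7U

open Polynomial IntermediateField

namespace BsXaux

/-- Artin's theorem for an injective action and a map onto the fixed field. -/
theorem base (K L k B : Type) [Field K] [Field L] [Field k] [Algebra k L] [Group B] [Finite B]
    (act : B →* (L ≃ₐ[k] L)) (hinj : Function.Injective act) (j : K →+* L)
    (hj : ∀ z, (∀ σ, act σ z = z) ↔ z ∈ j.range) :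
    letI := j.toAlgebra
    ∃ act' : B →* (L ≃ₐ[K] L), (∀ σ z, act' σ z = act σ z) ∧ FiniteDimensional K L ∧
      IsGalois K L ∧ Function.Bijective act' := by
  letI := j.toAlgebra
  letI : MulSemiringAction B L := MulSemiringAction.compHom L act
  have hG : IsGaloisGroup B K L :=
    { faithful := ⟨fun {σ τ} h => hinj (AlgEquiv.ext h)⟩
      commutes := ⟨fun σ a z => by
        change act σ (j a * z) = j a * act σ z
        rw [map_mul, (hj (j a)).mpr ⟨a, rfl⟩ σ]⟩
      isInvariant := ⟨fun z hz => (hj z).mp hz⟩ }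
  exact ⟨(IsGaloisGroup.mulEquivAlgEquiv B K L).toMonoidHom, fun σ z => rfl,
    IsGaloisGroup.finiteDimensional B K L, IsGaloisGroup.isGalois B K L,
    (IsGaloisGroup.mulEquivAlgEquiv B K L).bijective⟩

/-- An automorphism which is trivial on the fixed field of a subgroup is in the subgroup. -/
theorem corr (L k B : Type) [Field L] [Field k] [Algebra k L] [Group B] [Finite B]
    (act : B →* (L ≃ₐ[k] L)) (hinj : Function.Injective act) (N : Subgroup B) (σ : B)
    (h : ∀ z, (∀ τ ∈ N, act τ z = z) → act σ z = z) : σ ∈ N := by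
  letI : MulSemiringAction B L := MulSemiringAction.compHom L act
  haveI : FaithfulSMul B L := ⟨fun {σ τ} h => hinj (AlgEquiv.ext h)⟩
  have h1 := IsGaloisGroup.fixingSubgroup_fixedPoints B (FixedPoints.subfield B L) L N
  rw [← h1, mem_fixingSubgroup_iff]
  intro z hz
  exact h z (fun τ hτ => hz ⟨τ, hτ⟩)

theorem coef3 {k : Type} [Field k] (p q r : k)
    (h : (C p * X ^ 2 + C q * X + C r : k[X]) = 0) : p = 0 ∧ q = 0 ∧ r = 0 := by
  have c0 := congrArg (fun p => p.coeff 0) h
  have c1 := congrArg (fun p => p.coeff 1) h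
  have c2 := congrArg (fun p => p.coeff 2) h
  simp [coeff_X, coeff_C] at c0 c1 c2
  exact ⟨c2, c1, c0⟩

theorem uniq {k L : Type} [Field k] [Field L] [Algebra k L] (y v : L) (hy : Transcendental k y)
    (N N' : Matrix (Fin 2) (Fin 2) k) (hN : N.det ≠ 0) (hN' : N'.det ≠ 0)
    (h : Mob (algebraMap k L) N y v) (h' : Mob (algebraMap k L) N' y v) :
    ∃ c : k, c ≠ 0 ∧ N' = c • N := by
  obtain ⟨_, h2⟩ := h
  obtain ⟨_, h2'⟩ := h'
  have h1 : aeval y (C (N' 1 0 * N 0 0 - N 1 0 * N' 0 0) * X ^ 2 +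
      C (N' 1 0 * N 0 1 + N' 1 1 * N 0 0 - N 1 0 * N' 0 1 - N 1 1 * N' 0 0) * X +
      C (N' 1 1 * N 0 1 - N 1 1 * N' 0 1) : k[X]) = 0 := by
    simp only [map_add, map_mul, map_sub, map_pow, aeval_C, aeval_X]
    linear_combination (algebraMap k L (N 1 0) * y + algebraMap k L (N 1 1)) * h2' -
      (algebraMap k L (N' 1 0) * y + algebraMap k L (N' 1 1)) * h2
  have h3 := (transcendental_iff.mp hy) _ h1
  obtain ⟨c2, c1, c0⟩ := coef3 _ _ _ h3
  clear h1 h3
  rw [Matrix.det_fin_two] at hN hN'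
  generalize ha : N 0 0 = a at *
  generalize hb : N 0 1 = b at *
  generalize hc : N 1 0 = c at *
  generalize hd : N 1 1 = d at *
  generalize ha' : N' 0 0 = a' at *
  generalize hb' : N' 0 1 = b' at *
  generalize hc' : N' 1 0 = c' at *
  generalize hd' : N' 1 1 = d' at *
  have e1 : a * b' - a' * b = 0 := by
    have : (a * d - b * c) * (a * b' - a' * b) = 0 := by
      linear_combination a * b * c1 - a ^ 2 * c0 - b ^ 2 * c2
    exact (mul_eq_zero.mp this).resolve_left hN
  have e2 : c * d' - c' * d = 0 := by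
    have : (a * d - b * c) * (c * d' - c' * d) = 0 := by
      linear_combination c * d * c1 - d ^ 2 * c2 - c ^ 2 * c0
    exact (mul_eq_zero.mp this).resolve_left hN
  have e3 : a * d' - a' * d = 0 := by
    have q1 : c * (a * d' - a' * d) = 0 := by
      linear_combination a * e2 + d * c2
    have q2 : b * (a * d' - a' * d) = 0 := by
      linear_combination a * c0 + d * e1
    by_contra hs
    have hc0 : c = 0 := (mul_eq_zero.mp q1).resolve_right hs
    have hb0 : b = 0 := (mul_eq_zero.mp q2).resolve_right hs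
    rw [hc0, hb0] at c1
    apply hs
    linear_combination c1
  have e4 : b * c' - b' * c = 0 := by
    linear_combination c1 - e3
  have key : (a' * d - b' * c) / (a * d - b * c) * (a * d - b * c) = a' * d - b' * c :=
    div_mul_cancel₀ _ hN
  generalize hl : (a' * d - b' * c) / (a * d - b * c) = l at key
  have fa : a' = l * a := by
    apply mul_right_cancel₀ hN
    linear_combination -a * key + c * e1
  have fb : b' = l * b := by
    apply mul_right_cancel₀ hN
    linear_combination -b * key + d * e1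
  have fc : c' = l * c := by
    apply mul_right_cancel₀ hN
    linear_combination -c * key + d * c2 - c * e4
  have fd : d' = l * d := by
    apply mul_right_cancel₀ hN
    linear_combination -d * key + d * e3 - c * c0
  refine ⟨l, ?_, ?_⟩
  · rintro rfl
    apply hN'
    rw [fa, fb]
    ring
  · ext i j
    fin_cases i <;> fin_cases j
    · change N' 0 0 = l * N 0 0
      rw [ha, ha', fa]
    · change N' 0 1 = l * N 0 1
      rw [hb, hb', fb]
    · change N' 1 0 = l * N 1 0
      rw [hc, hc', fc]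
    · change N' 1 1 = l * N 1 1
      rw [hd, hd', fd]

theorem comp {k L : Type} [Field k] [Field L] (κ : k →+* L) (y u w : L)
    (N N' : Matrix (Fin 2) (Fin 2) k) (h : Mob κ N y u) (h' : Mob κ N' u w) :
    Mob κ (N' * N) y w := by
  obtain ⟨h1, h2⟩ := h
  obtain ⟨h1', h2'⟩ := h'
  have e : κ ((N' * N) 1 0) * y + κ ((N' * N) 1 1) =
      (κ (N 1 0) * y + κ (N 1 1)) * (κ (N' 1 0) * u + κ (N' 1 1)) := by
    rw [Matrix.mul_apply, Matrix.mul_apply, Fin.sum_univ_two, Fin.sum_univ_two, map_add, map_add,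
      map_mul, map_mul, map_mul, map_mul]
    linear_combination -κ (N' 1 0) * h2
  refine ⟨?_, ?_⟩
  · rw [e]
    exact mul_ne_zero h1 h1'
  · rw [e, Matrix.mul_apply, Matrix.mul_apply, Fin.sum_univ_two, Fin.sum_univ_two, map_add,
      map_add, map_mul, map_mul, map_mul, map_mul]
    linear_combination (κ (N 1 0) * y + κ (N 1 1)) * h2' + κ (N' 0 0) * h2

theorem mapM {k L : Type} [Field k] [Field L] [Algebra k L] (e : L ≃ₐ[k] L) (y u : L)
    (N : Matrix (Fin 2) (Fin 2) k) (h : Mob (algebraMap k L) N y u) :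
    Mob (algebraMap k L) N (e y) (e u) := by
  obtain ⟨h1, h2⟩ := h
  refine ⟨?_, ?_⟩
  · intro h0
    apply h1
    apply e.injective
    rw [map_add, map_mul, e.commutes, e.commutes, map_zero, h0]
  · have h3 := congrArg e h2
    rwa [map_mul, map_add, map_add, map_mul, map_mul, e.commutes, e.commutes, e.commutes,
      e.commutes] at h3

theorem mk (k : Type) [Field k] (B : Type) [Group B] [Finite B] (L : Type) [Field L]
    [Algebra k L] (act : B →* (L ≃ₐ[k] L)) (hinj : Function.Injective act)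
    (j : RatFunc k →+* L) (hj : ∀ z, (∀ σ, act σ z = z) ↔ z ∈ j.range)
    (hjc : ∀ c, j (algebraMap k _ c) = algebraMap k L c)
    (M : B → Matrix (Fin 2) (Fin 2) k) (P Q : k[X]) (y : L) (hQ : aeval y Q ≠ 0)
    (hP : aeval y P = j RatFunc.X * aeval y Q)
    (hM : ∀ σ, Mob (algebraMap k L) (M σ) y (act σ y))
    (hreg : ∀ x : L, (∃ f : k[X], f ≠ 0 ∧ aeval x f = 0) → ∃ c : k, algebraMap k L c = x) :
    HHm k B M P Q := by
  letI := j.toAlgebra
  have hc : cstL k L = algebraMap k L := RingHom.ext hjc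
  obtain ⟨act', h1, h2, h3, h4⟩ := base (RatFunc k) L k B act hinj j hj
  refine ⟨L, inferInstance, inferInstance, act', y, h2, h3, h4, ?_, ?_, ?_, ?_⟩
  · rw [hc]
    exact hQ
  · rw [hc]
    exact hP
  · intro σ
    rw [hc, h1]
    exact hM σ
  · rintro x ⟨f, hf, hx⟩
    obtain ⟨c, hc'⟩ := hreg x ⟨f, hf, by
      rw [aeval_def, ← hc]
      exact hx⟩
    exact ⟨c, by rw [← hc']; exact hjc c⟩

end BsXaux

open BsXaux in
theorem hBsX (hMb : MbGStmt) (hLu : LuXStmt) (hAu : AuXStmt) : BsXStmt := by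
  intro k _ B _ _ M₁ hM₁ hS N hN
  obtain ⟨act, hinj, -⟩ := hMb k B M₁ hM₁ hS
  obtain ⟨f, hf, hfB⟩ := hLu k B act
  obtain ⟨y, hy, hyN'⟩ := hLu k N (act.comp N.subtype)
  have hyN : ∀ z : RatFunc k, (∀ τ ∈ N, act τ z = z) ↔ z ∈ k⟮y⟯ := by
    intro z
    rw [← hyN']
    constructor
    · intro h τ
      exact h τ τ.2
    · intro h τ hτ
      exact h ⟨τ, hτ⟩
  have hft : Transcendental k f := RatFunc.transcendental_of_ne_C f (fun ⟨c, hc⟩ => hf c hc)
  have hyt : Transcendental k y := RatFunc.transcendental_of_ne_C y (fun ⟨c, hc⟩ => hy c hc)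
  have hyy : ∀ τ ∈ N, act τ y = y := (hyN y).mpr (mem_adjoin_simple_self k y)
  have hmem : ∀ σ, act σ y ∈ k⟮y⟯ := by
    intro σ
    rw [← hyN]
    intro τ hτ
    have h1 : τ * σ = σ * (σ⁻¹ * τ * σ) := by group
    have h2 : σ⁻¹ * τ * σ ∈ N := by
      have := hN.conj_mem τ hτ σ⁻¹
      rwa [inv_inv] at this
    rw [← AlgEquiv.mul_apply, ← map_mul, h1, map_mul, AlgEquiv.mul_apply, hyy _ h2]
  have hmap : ∀ σ (p : k[X]), act σ (aeval y p) = aeval (act σ y) p := by
    intro σ p
    exact (aeval_algHom_apply (act σ).toAlgHom y p).symm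
  have hmem' : ∀ σ, y ∈ k⟮act σ y⟯ := by
    intro σ
    obtain ⟨r, s, hrs⟩ := (mem_adjoin_simple_iff k _).mp (hmem σ⁻¹)
    rw [mem_adjoin_simple_iff]
    refine ⟨r, s, ?_⟩
    rw [← hmap, ← hmap, ← map_div₀, ← hrs, ← AlgEquiv.mul_apply, ← map_mul, mul_inv_cancel,
      map_one, AlgEquiv.one_apply]
  choose M hMdet hM using fun σ => hAu k y (act σ y) hy (hmem σ) (hmem' σ)
  have hone : Mob (algebraMap k (RatFunc k)) (1 : Matrix (Fin 2) (Fin 2) k) y y := by
    constructor
    · simp
    · simp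
  have hAH : IsAH M := by
    refine ⟨hMdet, ?_⟩
    intro σ τ
    have h1 : Mob (algebraMap k (RatFunc k)) (M τ * M σ) y (act (σ * τ) y) := by
      rw [map_mul, AlgEquiv.mul_apply]
      exact comp _ y (act σ y) (act σ (act τ y)) (M σ) (M τ) (hM σ) (mapM (act σ) _ _ _ (hM τ))
    exact uniq y (act (σ * τ) y) hyt (M τ * M σ) (M (σ * τ))
      (by rw [Matrix.det_mul]; exact mul_ne_zero (hMdet τ) (hMdet σ)) (hMdet _) h1 (hM _)
  have hSc : ∀ σ, Sc (M σ) ↔ σ ∈ N := by
    intro σ
    constructor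
    · rintro ⟨c, hc⟩
      have h1 := hM σ
      rw [hc] at h1
      obtain ⟨h2, h3⟩ := h1
      simp at h2 h3
      have h4 : act σ y = y := by
        rcases h3 with h3 | h3
        · exact h3
        · exact absurd h3 h2
      apply corr (RatFunc k) k B act hinj N σ
      intro z hz
      obtain ⟨r, s, hrs⟩ := (mem_adjoin_simple_iff k _).mp ((hyN z).mp hz)
      rw [hrs, map_div₀, hmap, hmap, h4]
    · intro hσ
      have h1 := hM σ
      rw [hyy σ hσ] at h1
      obtain ⟨c, _, hc⟩ := uniq y y hyt 1 (M σ) (by simp) (hMdet σ) hone h1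
      exact ⟨c, hc⟩
  have hfy : f ∈ k⟮y⟯ := by
    rw [← hyN]
    intro τ _
    exact (hfB f).mpr (mem_adjoin_simple_self k f) τ
  obtain ⟨P, Q, hPQ⟩ := (mem_adjoin_simple_iff k _).mp hfy
  have hf0 : f ≠ 0 := by
    intro h0
    apply hf 0
    rw [h0, map_zero]
  have hQ : aeval y Q ≠ 0 := by
    intro h0
    apply hf0
    rw [hPQ, h0, div_zero]
  let e := RatFunc.algEquivOfTranscendental f hft
  let j : RatFunc k →ₐ[k] RatFunc k := (k⟮f⟯).val.comp e.toAlgHom
  have hjX : j RatFunc.X = f := by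
    change ((e RatFunc.X : k⟮f⟯) : RatFunc k) = f
    exact RatFunc.algEquivOfTranscendental_X f hft
  have hjr : ∀ z, z ∈ k⟮f⟯ ↔ z ∈ j.toRingHom.range := by
    intro z
    constructor
    · intro hz
      refine ⟨e.symm ⟨z, hz⟩, ?_⟩
      change ((e (e.symm ⟨z, hz⟩) : k⟮f⟯) : RatFunc k) = z
      rw [AlgEquiv.apply_symm_apply]
    · rintro ⟨w, rfl⟩
      exact (e w).2
  refine ⟨M, P, Q, hAH, hSc, ?_⟩
  refine mk k B (RatFunc k) act hinj j.toRingHom ?_ ?_ M P Q y hQ ?_ hM ?_
  · intro z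
    rw [hfB, hjr]
  · intro c
    exact j.commutes c
  · change aeval y P = j RatFunc.X * aeval y Q
    rw [hjX]
    exact (eq_div_iff hQ).mp hPQ |>.symm
  · rintro x ⟨p, hp, hx⟩
    by_contra hcon
    have h1 : ¬ ∃ c, x = RatFunc.C c := by
      rintro ⟨c, rfl⟩
      exact hcon ⟨c, by rw [RatFunc.algebraMap_eq_C]⟩
    exact RatFunc.transcendental_of_ne_C x h1 ⟨p, hp, hx⟩

end MP7U
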