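import Pool.Agent.Lib.MP_7f581e_U.H.Spec1

/-!
MP_7f581e, U/H, module CnX: transport along an isomorphism.
-/

set_option autoImplicit false

namespace MP7U

open Polynomial

theorem hCnX : CnXStmt := by
  rintro k _ Γ Γ' _ _ f N ⟨M, P, Q, hM, hS, L, iF, iA, act, y, h1, h2, h3, h4, h5, h6, h7⟩
  refine ⟨fun σ => M (f σ), P, Q, ⟨fun σ => hM.det _, fun σ τ => ?_⟩, fun σ => ?_,
    L, iF, iA, act.comp f.toMonoidHom, y, h1, h2, h3.comp f.bijective, h4, h5,
    fun σ => h6 (f σ), h7⟩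
  · obtain ⟨c, hc, h⟩ := hM.mul (f σ) (f τ)
    exact ⟨c, hc, by rw [map_mul]; exact h⟩
  · exact hS (f σ)

end MP7U
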