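import Pool.Agent.Lib.MP_7f581e_U.H.Spec1

/-!
MP_7f581e, U/H, module EtX: extension of the matrices.
-/

set_option autoImplicit false

namespace MP7U

open Polynomial

theorem hEtX : EtXStmt := by
  intro k _ Γ _ N H hN hHN M₀ hM hS
  have hex : ∀ σ : Γ, ∃ h : H, (QuotientGroup.mk (h : Γ) : Γ ⧸ N) = QuotientGroup.mk σ ∧
      (σ ∈ H → (h : Γ) = σ) := by
    intro σ
    by_cases hσ : σ ∈ H
    · exact ⟨⟨σ, hσ⟩, rfl, fun _ => rfl⟩
    · have h1 : σ ∈ ((H ⊔ N : Subgroup Γ) : Set Γ) := by rw [hHN]; exact Set.mem_univ σ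
      rw [Subgroup.mul_normal] at h1
      obtain ⟨a, ha, b, hb, rfl⟩ := Set.mem_mul.mp h1
      refine ⟨⟨a, ha⟩, ?_, fun h => absurd h hσ⟩
      rw [QuotientGroup.eq]
      simpa using hb
  choose h hh1 hh2 using hex
  have key : ∀ a b : H, (QuotientGroup.mk (a : Γ) : Γ ⧸ N) = QuotientGroup.mk (b : Γ) →
      ∃ c : k, c ≠ 0 ∧ M₀ b = c • M₀ a := by
    intro a b hab
    rw [QuotientGroup.eq] at hab
    have h1 : Sc (M₀ (a⁻¹ * b)) := (hS _).mpr (by simpa using hab)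
    obtain ⟨d, hd⟩ := h1
    have hd0 : d ≠ 0 := by
      rintro rfl
      apply hM.det (a⁻¹ * b)
      rw [hd, zero_smul, Matrix.det_zero]
    obtain ⟨c, hc, h2⟩ := hM.mul a (a⁻¹ * b)
    rw [mul_inv_cancel_left, hd] at h2
    refine ⟨c * d, mul_ne_zero hc hd0, ?_⟩
    rw [h2, smul_mul_assoc, one_mul, smul_smul]
  refine ⟨fun σ => M₀ (h σ), ⟨fun σ => hM.det _, fun σ τ => ?_⟩, fun σ => ?_, fun a => ?_⟩
  · obtain ⟨c, hc, h1⟩ := key (h σ * h τ) (h (σ * τ)) (by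
      rw [hh1 (σ * τ), Subgroup.coe_mul, QuotientGroup.mk_mul, QuotientGroup.mk_mul, hh1 σ, hh1 τ])
    obtain ⟨d, hd, h2⟩ := hM.mul (h σ) (h τ)
    refine ⟨c * d, mul_ne_zero hc hd, ?_⟩
    rw [h1, h2, smul_smul]
  · rw [hS, ← QuotientGroup.eq_one_iff, ← QuotientGroup.eq_one_iff, hh1]
  · have : h (a : Γ) = a := Subtype.ext (hh2 _ a.2)
    change M₀ (h (a : Γ)) = M₀ a
    rw [this]

end MP7U
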