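import Pool.Agent.Lib.MP_7f581e_U.H.Spec1

/-!
# C41 (MP_7f581e_nt), Block H: GA realisations for large `p`
-/

set_option autoImplicit false

namespace MP7U

open Polynomial

theorem hGaX (h1 : UnXStmt) (h2 : PgXStmt) (h3 : InvFStmt) (h4 : ExGStmt) : GaXStmt := by
  intro S _ _ _ hnc hinv A B hsup
  have hA : (MulAut.conj (G := S)).range ≤ A := by
    rw [← hsup]; exact le_sup_left
  have hB : B ≤ A := by
    rw [← hsup]; exact le_sup_right
  have hfinM : Finite (MulAut S) :=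
    Finite.of_injective (fun f : MulAut S => (f : S → S)) DFunLike.coe_injective
  have hfinA : Finite A := inferInstance
  -- the subgroup of the inner automorphisms
  obtain ⟨N, hN⟩ : ∃ N : Subgroup A, N = (MulAut.conj (G := S)).range.subgroupOf A := ⟨_, rfl⟩
  have hmemN : ∀ x : A, x ∈ N ↔ (x : MulAut S) ∈ (MulAut.conj (G := S)).range := by
    intro x
    rw [hN, Subgroup.mem_subgroupOf]
  have hnorm : N.Normal := by
    refine ⟨fun n hn g => ?_⟩
    rw [hmemN] at hn ⊢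
    obtain ⟨s, hs⟩ := hn
    refine ⟨(g : MulAut S) s, ?_⟩
    rw [Subgroup.coe_mul, Subgroup.coe_mul, Subgroup.coe_inv, ← hs]
    ext x
    simp [MulAut.mul_apply]
  have hsup' : N ⊔ B.subgroupOf A = ⊤ := by
    apply Subgroup.map_injective A.subtype_injective
    rw [Subgroup.map_sup, hN, Subgroup.map_subgroupOf_eq_of_le hA,
      Subgroup.map_subgroupOf_eq_of_le hB,
      ← MonoidHom.range_eq_map, Subgroup.range_subtype]
    exact hsup
  -- the inner automorphisms are generated by involutions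
  let cj : S →* A := (MulAut.conj (G := S)).codRestrict A fun s => hA ⟨s, rfl⟩
  have hcjN : ∀ s, cj s ∈ N := fun s => (hmemN _).mpr ⟨s, rfl⟩
  have hNle : N ≤ Subgroup.closure {g : A | g ^ 2 = 1 ∧ g ∈ N} := by
    intro x hx
    obtain ⟨s, hs⟩ := (hmemN x).mp hx
    have hxs : x = cj s := Subtype.ext hs.symm
    have h6 : s ∈ Subgroup.closure {g : S | g ^ 2 = 1} := by
      rw [h3 S hinv]
      trivial
    have h7 : cj s ∈ (Subgroup.closure {g : S | g ^ 2 = 1}).map cj :=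
      Subgroup.mem_map_of_mem cj h6
    rw [MonoidHom.map_closure] at h7
    rw [hxs]
    refine Subgroup.closure_mono ?_ h7
    rintro _ ⟨t, ht, rfl⟩
    refine ⟨?_, hcjN t⟩
    have ht' : t ^ 2 = 1 := ht
    rw [← map_pow, ht', map_one]
  have htop : B.subgroupOf A ⊔ Subgroup.closure {g : A | g ^ 2 = 1 ∧ g ∈ N} = ⊤ := by
    rw [eq_top_iff, ← hsup', sup_comm N]
    exact sup_le_sup_left hNle _
  obtain ⟨n₀, hn₀⟩ := h1 A N (B.subgroupOf A) hnorm htop
  refine ⟨n₀, fun p _ hp hρ => ?_⟩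
  obtain ⟨ρ, hρi⟩ := hρ
  obtain ⟨M₁, hM₁, hM₁s⟩ := h2 (ZMod p) (B.subgroupOf A)
    (ρ.comp (Subgroup.subgroupOfEquivOfLe hB).toMonoidHom) (by
      intro x y hxy
      exact (Subgroup.subgroupOfEquivOfLe hB).injective (hρi hxy))
  obtain ⟨M, P, Q, hM, hMs, hHH⟩ := hn₀ p hp ⟨M₁, hM₁, hM₁s⟩
  obtain ⟨L, i1, i2, a, hainj, hac, hafix⟩ := h4 (ZMod p) A N M P Q hM hMs hHH
  refine ⟨inferInstance, inferInstance, hnc, hA, L, i1, i2, a, hainj, hac, fun y => ?_⟩
  rw [← hafix y]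
  constructor
  · intro h σ hσ
    exact h σ ((hmemN σ).mp hσ)
  · intro h σ hσ
    exact h σ ((hmemN σ).mpr hσ)

end MP7U
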