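import Pool.Agent.Lib.MP_7f581e_U.H.Spec1

/-!
# C41 (MP_7f581e_nt), U/H/IcX: induction over a list of involutions
-/

set_option autoImplicit false

namespace MP7U

namespace IcXM

theorem HHx_congr {k : Type} [Field k] {Γ : Type} [Group Γ] {N : Subgroup Γ}
    {H H' : Subgroup Γ} (h : H = H') (hH : HHx k H (N.subgroupOf H)) :
    HHx k H' (N.subgroupOf H') := by
  subst h
  exact hH

theorem step (hCnX : CnXStmt) (hStX : StXStmt) {k : Type} [Field k] [CharZero k]
    (hk : PAC k) {Γ : Type} [Group Γ] [Finite Γ] {N : Subgroup Γ} (hN : N.Normal)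
    {H : Subgroup Γ} (g : Γ) (h2 : g ^ 2 = 1) (hgN : g ∈ N) (hH : HHx k H (N.subgroupOf H)) :
    HHx k (H ⊔ Subgroup.zpowers g : Subgroup Γ) (N.subgroupOf (H ⊔ Subgroup.zpowers g)) := by
  by_cases hg : g = 1
  · refine HHx_congr ?_ hH
    rw [hg, Subgroup.zpowers_one_eq_bot, sup_bot_eq]
  · have hle : H ≤ H ⊔ Subgroup.zpowers g := le_sup_left
    have hgm : g ∈ H ⊔ Subgroup.zpowers g :=
      (le_sup_right : Subgroup.zpowers g ≤ _) (Subgroup.mem_zpowers g)
    refine hStX k hk (H ⊔ Subgroup.zpowers g : Subgroup Γ)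
      (N.subgroupOf (H ⊔ Subgroup.zpowers g))
      (H.subgroupOf (H ⊔ Subgroup.zpowers g)) ⟨g, hgm⟩ (hN.subgroupOf _) (Subtype.ext h2)
      (fun h => hg (congrArg Subtype.val h)) (Subgroup.mem_subgroupOf.2 hgN) ?_ ?_
    · apply Subgroup.map_injective
        (Subgroup.subtype_injective (H ⊔ Subgroup.zpowers g : Subgroup Γ))
      rw [Subgroup.map_sup, Subgroup.subgroupOf_map_subtype, MonoidHom.map_zpowers,
        inf_eq_left.2 hle, ← MonoidHom.range_eq_map, Subgroup.range_subtype]
      rfl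
    · have h5 : ((N.subgroupOf H).comap (Subgroup.subgroupOfEquivOfLe hle).toMonoidHom) =
          (N.subgroupOf (H ⊔ Subgroup.zpowers g)).subgroupOf
            (H.subgroupOf (H ⊔ Subgroup.zpowers g)) := by
        ext x
        rfl
      rw [← h5]
      exact hCnX k H _ (Subgroup.subgroupOfEquivOfLe hle) _ hH

end IcXM

open IcXM in
theorem hIcX (hCnX : CnXStmt) (hStX : StXStmt) : IcXStmt := by
  intro k _ _ hk Γ _ _ N H₀ hN hH l
  induction l with
  | nil =>
    intro _
    refine HHx_congr ?_ hH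
    have h1 : {g : Γ | g ∈ ([] : List Γ)} = ∅ := by
      ext g
      simp
    rw [h1, Subgroup.closure_empty, sup_bot_eq]
  | cons g l ih =>
    intro hl
    have h1 := ih fun x hx => hl x (List.mem_cons_of_mem g hx)
    have h2 := step hCnX hStX hk hN g (hl g List.mem_cons_self).1 (hl g List.mem_cons_self).2 h1
    refine HHx_congr ?_ h2
    have h3 : {x : Γ | x ∈ g :: l} = {x | x ∈ l} ∪ {g} := by
      ext x
      simp
    rw [h3, Subgroup.closure_union, ← Subgroup.zpowers_eq_closure, sup_assoc]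

end MP7U
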