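import Pool.Agent.Lib.MP_7f581e_U.H.Spec1

/-!
MP_7f581e, U/H, module LuX: Lueroth for the fixed field of a finite group.
-/

set_option autoImplicit false

namespace MP7U

open Polynomial

theorem hLuX : LuXStmt := by
  intro k _ Δ _ _ act
  set E : IntermediateField k (RatFunc k) := IntermediateField.fixedField act.range with hE
  have hmem : ∀ z, z ∈ E ↔ ∀ σ, act σ z = z := by
    intro z
    rw [hE, IntermediateField.mem_fixedField_iff]
    constructor
    · intro h σ
      exact h _ ⟨σ, rfl⟩
    · rintro h _ ⟨σ, rfl⟩
      exact h σ
  have hbot : E ≠ ⊥ := by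
    intro hb
    have hfin : Finite act.range := Set.finite_range act |>.to_subtype
    have h1 := FixedPoints.isIntegral act.range (RatFunc k) (RatFunc.X : RatFunc k)
    obtain ⟨p, hp, hx⟩ := h1
    have h2 : p.map (FixedPoints.subfield act.range (RatFunc k)).subtype ∈
        lifts (algebraMap k (RatFunc k)) := by
      rw [lifts_iff_coeff_lifts]
      intro n
      rw [coeff_map]
      have h3 : ((p.coeff n : FixedPoints.subfield act.range (RatFunc k)) : RatFunc k) ∈ E := by
        rw [hmem]
        intro σ
        exact (p.coeff n).2 ⟨act σ, ⟨σ, rfl⟩⟩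
      rw [hb, IntermediateField.mem_bot] at h3
      exact h3
    obtain ⟨q, hq⟩ := (mem_lifts _).mp h2
    apply RatFunc.transcendental_X (K := k)
    refine ⟨q, ?_, ?_⟩
    · rintro rfl
      rw [Polynomial.map_zero] at hq
      have h4 : p = 0 := by
        apply Polynomial.map_injective (FixedPoints.subfield act.range (RatFunc k)).subtype
          (fun a b h => Subtype.ext h)
        rw [← hq, Polynomial.map_zero]
      exact hp.ne_zero h4
    · rw [aeval_def, ← eval_map, hq, eval_map]
      exact hx
  refine ⟨RatFunc.Luroth.generator E, ?_, ?_⟩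
  · intro c hc
    exact RatFunc.Luroth.generator_ne_C hbot ⟨c, hc⟩
  · intro z
    rw [← hmem z]
    have h := RatFunc.Luroth.eq_adjoin_generator (E := E)
    constructor
    · intro hz
      rw [h] at hz
      exact hz
    · intro hz
      rw [h]
      exact hz

end MP7U
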