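import Pool.Agent.Lib.MP_7f581e_U.H.Spec1

/-!
MP_7f581e, U/H, module PgX: homomorphisms to `PGL₂` and matrices.
-/

set_option autoImplicit false

namespace MP7U

open Polynomial

theorem hPgX : PgXStmt := by
  intro k _ B _ ρ hρ
  set G : B → GL (Fin 2) k := fun σ => (ρ σ⁻¹).out with hG
  have hGm : ∀ σ, (QuotientGroup.mk (G σ) : PGL2 k) = ρ σ⁻¹ := fun σ => Quotient.out_eq' _
  have hdet : ∀ g : GL (Fin 2) k, (g : Matrix (Fin 2) (Fin 2) k).det ≠ 0 := by
    intro g h0
    have h1 : ((g * g⁻¹ : GL (Fin 2) k) : Matrix (Fin 2) (Fin 2) k).det = 1 := by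
      rw [mul_inv_cancel, Units.val_one, Matrix.det_one]
    rw [Units.val_mul, Matrix.det_mul, h0, zero_mul] at h1
    exact zero_ne_one h1
  refine ⟨fun σ => (G σ : Matrix (Fin 2) (Fin 2) k), ⟨fun σ => hdet _, fun σ τ => ?_⟩,
    fun σ hσ => ?_⟩
  · have h1 : (QuotientGroup.mk (G τ * G σ) : PGL2 k) = QuotientGroup.mk (G (σ * τ)) := by
      rw [QuotientGroup.mk_mul, hGm, hGm, hGm, mul_inv_rev, map_mul]
    rw [QuotientGroup.eq, Matrix.GeneralLinearGroup.mem_center_iff_val_mem_range_scalar] at h1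
    obtain ⟨c, hc⟩ := h1
    have h2 : ((G (σ * τ) : GL (Fin 2) k) : Matrix (Fin 2) (Fin 2) k) =
        ((G τ * G σ : GL (Fin 2) k) : Matrix (Fin 2) (Fin 2) k) *
          (((G τ * G σ)⁻¹ * G (σ * τ) : GL (Fin 2) k) : Matrix (Fin 2) (Fin 2) k) := by
      rw [← Units.val_mul, mul_inv_cancel_left]
    have h3 : Matrix.scalar (Fin 2) c = c • (1 : Matrix (Fin 2) (Fin 2) k) := by
      rw [Matrix.scalar_apply, ← Matrix.diagonal_one, ← Matrix.diagonal_smul]
      congr 1
      funext i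
      simp
    rw [← hc, h3, mul_smul_comm, mul_one, Units.val_mul] at h2
    refine ⟨c, ?_, h2⟩
    rintro rfl
    apply hdet (G (σ * τ))
    rw [h2, zero_smul, Matrix.det_zero]
  · obtain ⟨c, hc⟩ := hσ
    have h3 : Matrix.scalar (Fin 2) c = c • (1 : Matrix (Fin 2) (Fin 2) k) := by
      rw [Matrix.scalar_apply, ← Matrix.diagonal_one, ← Matrix.diagonal_smul]
      congr 1
      funext i
      simp
    have h1 : G σ ∈ Subgroup.center (GL (Fin 2) k) := by
      rw [Matrix.GeneralLinearGroup.mem_center_iff_val_mem_range_scalar]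
      exact ⟨c, by rw [h3]; exact hc.symm⟩
    have h2 : ρ σ⁻¹ = 1 := by
      rw [← hGm]
      exact (QuotientGroup.eq_one_iff _).mpr h1
    have h4 : σ⁻¹ = 1 := hρ (by rw [h2, map_one])
    exact inv_eq_one.mp h4

end MP7U
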