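import Pool.Agent.Lib.MP_7f581e_U.H.Spec1

/-!
MP_7f581e, U/H, module SpX: specialization.
-/

set_option autoImplicit false

namespace MP7U

open Polynomial

namespace SpXaux

/-- The image of a polynomial with coefficients in a subring. -/
noncomputable def mapP {K k' : Type} [Field K] [Field k'] (R : Subring K) (φ : R →+* k') (P : K[X])
    (h : ∀ i, P.coeff i ∈ R) : k'[X] :=
  ∑ i ∈ Finset.range (P.natDegree + 1), monomial i (φ ⟨P.coeff i, h i⟩)

theorem mapP_coeff {K k' : Type} [Field K] [Field k'] (R : Subring K) (φ : R →+* k') (P : K[X])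
    (h : ∀ i, P.coeff i ∈ R) (i : ℕ) : (mapP R φ P h).coeff i = φ ⟨P.coeff i, h i⟩ := by
  rw [mapP, finset_sum_coeff]
  simp only [coeff_monomial]
  rw [Finset.sum_ite_eq' (Finset.range (P.natDegree + 1)) i]
  split_ifs with hi
  · rfl
  · rw [Finset.mem_range, not_lt] at hi
    have h0 : P.coeff i = 0 := coeff_eq_zero_of_natDegree_lt (by omega)
    have h1 : (⟨P.coeff i, h i⟩ : R) = 0 := Subtype.ext h0
    rw [h1, map_zero]

theorem sc_entries {k : Type} [Field k] (A : Matrix (Fin 2) (Fin 2) k) :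
    Sc A ↔ A 0 1 = 0 ∧ A 1 0 = 0 ∧ A 0 0 = A 1 1 := by
  constructor
  · rintro ⟨c, h1⟩
    have h01 := congrFun (congrFun h1 0) 1
    have h10 := congrFun (congrFun h1 1) 0
    have h00 := congrFun (congrFun h1 0) 0
    have h11 := congrFun (congrFun h1 1) 1
    simp only [Matrix.smul_apply, smul_eq_mul] at h01 h10 h00 h11
    rw [Matrix.one_apply_ne (by decide), mul_zero] at h01 h10
    rw [Matrix.one_apply_eq, mul_one] at h00 h11
    exact ⟨h01, h10, h00.trans h11.symm⟩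
  · rintro ⟨e01, e10, e11⟩
    refine ⟨A 0 0, ?_⟩
    ext i j
    fin_cases i <;> fin_cases j
    · simp
    · simpa using e01
    · simpa using e10
    · simpa using e11.symm

/-- The witness for a matrix which is not scalar. -/
noncomputable def wit {k : Type} [Field k] (A : Matrix (Fin 2) (Fin 2) k) : k := by
  classical
  exact if A 0 1 ≠ 0 then A 0 1 else if A 1 0 ≠ 0 then A 1 0 else A 0 0 - A 1 1

theorem wit_ne {k : Type} [Field k] (A : Matrix (Fin 2) (Fin 2) k) (h : ¬ Sc A) : wit A ≠ 0 := by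
  unfold wit
  split_ifs with h1 h2
  · exact h1
  · exact h2
  · intro h3
    push Not at h1 h2
    exact h ((sc_entries A).mpr ⟨h1, h2, sub_eq_zero.mp h3⟩)

end SpXaux

open SpXaux in
theorem hSpX (hSp : SpGStmt) : SpXStmt := by
  classical
  rintro K _ _ Γ _ _ N ⟨M, P, Q, hM, hS, hH⟩
  obtain ⟨S₀, hSM, hSP, hSQ, hS₀⟩ := hSp K Γ M P Q hH
  have : Fintype Γ := Fintype.ofFinite Γ
  choose c hc hmul using hM.mul
  set S : Finset K := S₀ ∪ ((Finset.univ.image fun σ => ((M σ).det)⁻¹) ∪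
    ((Finset.univ.image fun στ : Γ × Γ => c στ.1 στ.2) ∪
      ((Finset.univ.image fun στ : Γ × Γ => (c στ.1 στ.2)⁻¹) ∪
        (Finset.univ.image fun σ => (wit (M σ))⁻¹)))) with hSdef
  have hsub : cl S₀ ≤ cl S := Subring.closure_mono (by
    intro x hx
    rw [hSdef]
    exact Finset.mem_coe.mpr (Finset.mem_union_left _ (Finset.mem_coe.mp hx)))
  have m1 : ∀ σ, ((M σ).det)⁻¹ ∈ cl S := by
    intro σ
    apply Subring.subset_closure
    rw [hSdef]
    simp only [Finset.coe_union, Set.mem_union, Finset.mem_coe, Finset.mem_image,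
      Finset.mem_univ, true_and]
    exact Or.inr (Or.inl ⟨σ, rfl⟩)
  have m2 : ∀ σ τ, c σ τ ∈ cl S := by
    intro σ τ
    apply Subring.subset_closure
    rw [hSdef]
    simp only [Finset.coe_union, Set.mem_union, Finset.mem_coe, Finset.mem_image,
      Finset.mem_univ, true_and]
    exact Or.inr (Or.inr (Or.inl ⟨(σ, τ), rfl⟩))
  have m3 : ∀ σ τ, (c σ τ)⁻¹ ∈ cl S := by
    intro σ τ
    apply Subring.subset_closure
    rw [hSdef]
    simp only [Finset.coe_union, Set.mem_union, Finset.mem_coe, Finset.mem_image,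
      Finset.mem_univ, true_and]
    exact Or.inr (Or.inr (Or.inr (Or.inl ⟨(σ, τ), rfl⟩)))
  have m4 : ∀ σ, (wit (M σ))⁻¹ ∈ cl S := by
    intro σ
    apply Subring.subset_closure
    rw [hSdef]
    simp only [Finset.coe_union, Set.mem_union, Finset.mem_coe, Finset.mem_image,
      Finset.mem_univ, true_and]
    exact Or.inr (Or.inr (Or.inr (Or.inr ⟨σ, rfl⟩)))
  have mM : ∀ σ i j, M σ i j ∈ cl S := fun σ i j => hsub (hSM σ i j)
  refine ⟨S, ?_⟩
  intro k' _ φ
  have hunit : ∀ (x : K) (hx : x ∈ cl S), x⁻¹ ∈ cl S → x ≠ 0 → φ ⟨x, hx⟩ ≠ 0 := by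
    intro x hx hx' h0 h1
    have h2 : (⟨x, hx⟩ : cl S) * ⟨x⁻¹, hx'⟩ = 1 := Subtype.ext (mul_inv_cancel₀ h0)
    have h3 := congrArg φ h2
    rw [map_mul, h1, zero_mul, map_one] at h3
    exact zero_ne_one h3
  set φ₀ : cl S₀ →+* k' := φ.comp (Subring.inclusion hsub) with hφ₀
  set M' : Γ → Matrix (Fin 2) (Fin 2) k' := fun σ => Matrix.of fun i j => φ ⟨M σ i j, mM σ i j⟩
    with hM'
  have hM'a : ∀ σ i j, M' σ i j = φ ⟨M σ i j, mM σ i j⟩ := fun σ i j => rfl
  have hH' := hS₀ k' φ₀ M' (mapP (cl S₀) φ₀ P hSP) (mapP (cl S₀) φ₀ Q hSQ)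
    (fun σ i j h => rfl) (fun i h => mapP_coeff _ _ _ _ _) (fun i h => mapP_coeff _ _ _ _ _)
  refine ⟨M', _, _, ⟨fun σ => ?_, fun σ τ => ?_⟩, fun σ => ?_, hH'⟩
  · have hdm : (M σ).det ∈ cl S := by
      rw [Matrix.det_fin_two]
      exact sub_mem (mul_mem (mM _ _ _) (mM _ _ _)) (mul_mem (mM _ _ _) (mM _ _ _))
    have h1 : (M' σ).det = φ ⟨(M σ).det, hdm⟩ := by
      rw [Matrix.det_fin_two, hM'a, hM'a, hM'a, hM'a, ← map_mul, ← map_mul, ← map_sub]
      congr 1
      apply Subtype.ext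
      exact (Matrix.det_fin_two (M σ)).symm
    rw [h1]
    exact hunit _ hdm (m1 σ) (hM.det σ)
  · refine ⟨φ ⟨c σ τ, m2 σ τ⟩, hunit _ _ (m3 σ τ) (hc σ τ), ?_⟩
    ext i j
    simp only [Matrix.smul_apply, Matrix.mul_apply, Fin.sum_univ_two, smul_eq_mul, hM'a]
    rw [← map_mul, ← map_mul, ← map_add, ← map_mul]
    congr 1
    apply Subtype.ext
    simp only [Subring.coe_mul, Subring.coe_add]
    rw [hmul σ τ]
    simp only [Matrix.smul_apply, Matrix.mul_apply, Fin.sum_univ_two, smul_eq_mul]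
  · rw [← hS σ]
    constructor
    · intro h1
      by_contra h2
      have h3 := wit_ne (M σ) h2
      rw [sc_entries] at h1
      obtain ⟨e1, e2, e3⟩ := h1
      have hw : ∀ (x : K) (hx : x ∈ cl S), wit (M σ) = x → φ ⟨x, hx⟩ ≠ 0 := by
        intro x hx he
        apply hunit x hx
        · rw [← he]
          exact m4 σ
        · rw [← he]
          exact h3
      by_cases c1 : M σ 0 1 ≠ 0
      · exact hw (M σ 0 1) (mM σ 0 1) (if_pos c1) e1
      · by_cases c2 : M σ 1 0 ≠ 0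
        · refine hw (M σ 1 0) (mM σ 1 0) ?_ e2
          unfold wit
          rw [if_neg c1, if_pos c2]
        · refine hw (M σ 0 0 - M σ 1 1) (sub_mem (mM _ _ _) (mM _ _ _)) ?_ ?_
          · unfold wit
            rw [if_neg c1, if_neg c2]
          · have h4 : (⟨M σ 0 0 - M σ 1 1, sub_mem (mM _ _ _) (mM _ _ _)⟩ : cl S) =
                ⟨M σ 0 0, mM σ 0 0⟩ - ⟨M σ 1 1, mM σ 1 1⟩ := rfl
            rw [h4, map_sub, sub_eq_zero]
            exact e3
    · intro h1
      rw [sc_entries] at h1 ⊢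
      obtain ⟨e1, e2, e3⟩ := h1
      refine ⟨?_, ?_, ?_⟩
      · rw [hM'a]
        have : (⟨M σ 0 1, mM σ 0 1⟩ : cl S) = 0 := Subtype.ext e1
        rw [this, map_zero]
      · rw [hM'a]
        have : (⟨M σ 1 0, mM σ 1 0⟩ : cl S) = 0 := Subtype.ext e2
        rw [this, map_zero]
      · rw [hM'a, hM'a]
        congr 1
        exact Subtype.ext e3

end MP7U
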