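import Pool.Agent.Lib.MP_7f581e_U.H.Spec1

/-!
MP_7f581e, U/H, module StX: one step of the induction.
-/

set_option autoImplicit false

namespace MP7U

open Polynomial

theorem sc_map {k k' : Type} [Field k] [Field k'] (φ : k →+* k') (A : Matrix (Fin 2) (Fin 2) k) :
    Sc (A.map φ) ↔ Sc A := by
  constructor
  · rintro ⟨c, h1⟩
    have h01 := congrFun (congrFun h1 0) 1
    have h10 := congrFun (congrFun h1 1) 0
    have h00 := congrFun (congrFun h1 0) 0
    have h11 := congrFun (congrFun h1 1) 1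
    simp only [Matrix.map_apply, Matrix.smul_apply, smul_eq_mul] at h01 h10 h00 h11
    rw [Matrix.one_apply_ne (by decide), mul_zero] at h01 h10
    rw [Matrix.one_apply_eq, mul_one] at h00 h11
    have e01 : A 0 1 = 0 := φ.injective (by rw [h01, map_zero])
    have e10 : A 1 0 = 0 := φ.injective (by rw [h10, map_zero])
    have e11 : A 0 0 = A 1 1 := φ.injective (by rw [h00, h11])
    refine ⟨A 0 0, ?_⟩
    ext i j
    fin_cases i <;> fin_cases j
    · simp
    · simpa using e01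
    · simpa using e10
    · simpa using e11.symm
  · rintro ⟨c, h1⟩
    refine ⟨φ c, ?_⟩
    rw [h1]
    ext i j
    fin_cases i <;> fin_cases j <;> simp

theorem isAH_map {k k' Γ : Type} [Field k] [Field k'] [Group Γ] (φ : k →+* k')
    {M : Γ → Matrix (Fin 2) (Fin 2) k} (hM : IsAH M) : IsAH (fun σ => (M σ).map φ) := by
  refine ⟨fun σ => ?_, fun σ τ => ?_⟩
  · have h1 : ((M σ).map φ).det = φ (M σ).det := (RingHom.map_det φ (M σ)).symm
    rw [h1]
    exact (map_ne_zero φ).mpr (hM.det σ)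
  · obtain ⟨c, hc, h⟩ := hM.mul σ τ
    refine ⟨φ c, (map_ne_zero φ).mpr hc, ?_⟩
    rw [h]
    ext i j
    simp only [Matrix.map_apply, Matrix.smul_apply, Matrix.mul_apply, Fin.sum_univ_two,
      smul_eq_mul, map_mul, map_add]

theorem hStX (hSl : SlGStmt) (hPt : PtGStmt) (hAll : AllCStmt) (hSp : SpXStmt) (hEt : EtXStmt) :
    StXStmt := by
  rintro k _ _ hPAC Γ _ _ N H g hN hg2 hg1 hgN hHg ⟨M₀, P, Q, hM₀, hS₀, hH⟩
  have hHN : H ⊔ N = ⊤ := by
    rw [eq_top_iff, ← hHg]
    refine sup_le le_sup_left (le_trans ?_ le_sup_right)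
    rw [Subgroup.zpowers_le]
    exact hgN
  obtain ⟨M, hM, hS, hMH⟩ := hEt k Γ N H hN hHN M₀ hM₀ (fun h => hS₀ h)
  have e : M₀ = fun h : H => M h := by
    funext h
    exact (hMH h).symm
  rw [e] at hH
  have h1 := hSl k hPAC H (fun h : H => M h) P Q hH
  have h2 := hPt k Γ M P Q H g hM hg2 hg1 ((hS g).mpr hgN) hHg h1
  have h3 : CharZero (LaurentSeries k) :=
    charZero_of_injective_ringHom
      (HahnSeries.C_injective : Function.Injective (HahnSeries.C : k →+* LaurentSeries k))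
  have h4 : HHx (LaurentSeries k) Γ N :=
    ⟨_, _, _, isAH_map (HahnSeries.C : k →+* LaurentSeries k) hM,
      fun σ => (sc_map _ _).trans (hS σ), h2⟩
  obtain ⟨S, h5⟩ := hSp (LaurentSeries k) Γ N h4
  obtain ⟨φ⟩ := hAll k hPAC S
  exact h5 k φ

end MP7U
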