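import Pool.Agent.Lib.MP_7f581e_U.H.Spec1

/-!
MP_7f581e, U/H, module UmX: matrices over the ultraproduct.
-/

set_option autoImplicit false

namespace MP7U

open Polynomial

theorem hUmX (hLg : LgDStmt) : UmXStmt := by
  intro p _ K _ π hπ B _ _ M hM hS
  obtain ⟨_, _, l3, l4, _, l6⟩ := hLg p K π hπ
  have hne : ∀ x : ∀ n, ZMod (p n), (∀ n, x n ≠ 0) → π x ≠ 0 := by
    intro x hx h0
    have h1 : x * (fun n => (x n)⁻¹) = 1 := by
      funext n
      exact mul_inv_cancel₀ (hx n)
    have h2 := congrArg π h1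
    rw [map_mul, h0, zero_mul, map_one] at h2
    exact zero_ne_one h2
  refine ⟨fun σ => Matrix.of fun i j => π (fun n => M n σ i j), ⟨fun σ => ?_, fun σ τ => ?_⟩,
    fun σ hσ => ?_⟩
  · have h1 : (Matrix.of fun i j => π (fun n => M n σ i j)).det =
        π (fun n => (M n σ).det) := by
      rw [Matrix.det_fin_two]
      simp only [Matrix.of_apply]
      rw [← map_mul, ← map_mul, ← map_sub]
      congr 1
      funext n
      rw [Matrix.det_fin_two]
      rfl
    rw [h1]
    exact hne _ (fun n => (hM n).det σ)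
  · choose c hc h1 using fun n => (hM n).mul σ τ
    refine ⟨π c, hne c hc, ?_⟩
    ext i j
    simp only [Matrix.of_apply, Matrix.smul_apply, Matrix.mul_apply, Fin.sum_univ_two,
      smul_eq_mul]
    rw [← map_mul, ← map_mul, ← map_add, ← map_mul]
    congr 1
    funext n
    rw [h1 n]
    simp only [Matrix.smul_apply, Matrix.mul_apply, Fin.sum_univ_two, smul_eq_mul, Pi.mul_apply,
      Pi.add_apply]
  · obtain ⟨c, h1⟩ := hσ
    have h01 := congrFun (congrFun h1 0) 1
    have h10 := congrFun (congrFun h1 1) 0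
    have h00 := congrFun (congrFun h1 0) 0
    have h11 := congrFun (congrFun h1 1) 1
    simp only [Matrix.of_apply, Matrix.smul_apply, smul_eq_mul] at h01 h10 h00 h11
    rw [Matrix.one_apply_ne (by decide), mul_zero] at h01 h10
    rw [Matrix.one_apply_eq, mul_one] at h00 h11
    have hd : π ((fun n => M n σ 0 0) - (fun n => M n σ 1 1)) = 0 := by
      rw [map_sub, h00, h11, sub_self]
    obtain ⟨n, hn1, hn2, hn3⟩ := l6 _ (l3 _ _ (l4 _ h01) (l3 _ _ (l4 _ h10) (l4 _ hd)))
    apply hS n σ
    refine ⟨M n σ 0 0, ?_⟩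
    simp only [Set.mem_setOf_eq, Pi.sub_apply] at hn1 hn2 hn3
    ext i j
    fin_cases i <;> fin_cases j
    · simp
    · simpa using hn1
    · simpa using hn2
    · simpa using (sub_eq_zero.mp hn3).symm

end MP7U
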