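import Pool.Agent.Lib.MP_7f581e_U.D.All
import Pool.Agent.Lib.MP_7f581e_U.G.All
import Pool.Agent.Lib.MP_7f581e_U.H.LuX
import Pool.Agent.Lib.MP_7f581e_U.H.AuXm
import Pool.Agent.Lib.MP_7f581e_U.H.BsX
import Pool.Agent.Lib.MP_7f581e_U.H.EtX
import Pool.Agent.Lib.MP_7f581e_U.H.SpX
import Pool.Agent.Lib.MP_7f581e_U.H.StX
import Pool.Agent.Lib.MP_7f581e_U.H.CnX
import Pool.Agent.Lib.MP_7f581e_U.H.IcX
import Pool.Agent.Lib.MP_7f581e_U.H.UmX
import Pool.Agent.Lib.MP_7f581e_U.H.UnX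
import Pool.Agent.Lib.MP_7f581e_U.H.PgX
import Pool.Agent.Lib.MP_7f581e_U.H.GaX

/-!
# C41 (MP_7f581e_nt), Block H, assembly
-/

set_option autoImplicit false

namespace MP7U

theorem xLuX : LuXStmt := hLuX

theorem xAuX : AuXStmt := hAuX

theorem xBsX : BsXStmt := hBsX xMbG xLuX xAuX

theorem xEtX : EtXStmt := hEtX

theorem xSpX : SpXStmt := hSpX xSpG

theorem xStX : StXStmt := hStX xSlG xPtG xAllC xSpX xEtX

theorem xCnX : CnXStmt := hCnX

theorem xIcX : IcXStmt := hIcX xCnX xStX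

theorem xUmX : UmXStmt := hUmX xLgD

theorem xUnX : UnXStmt := hUnX xExD xChD xPacD xLgD xFinD xBsX xSpX xCnX xIcX xUmX

theorem xPgX : PgXStmt := hPgX

theorem xGaX : GaXStmt := hGaX xUnX xPgX xInvF xExG

end MP7U
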