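import Pool.Agent.Lib.MP_7f581e_U.G.Spec1

/-!
# C41 (MP_7f581e_nt), Block H: the general form, assembly

This replaces the modules LuG, BsG, SpC2, CuC2, AlC2, StG, IcG, UaG, UnG, GaG of block G (which are not needed).

`HHx k Γ N`: `Γ` is the Galois group of a regular extension `L / k(X)` such that the fixed field of the normal subgroup `N` is a
rational function field `k(y)` (expressed by matrices `M_σ` with `σ y = M_σ(y)`, `M_σ` scalar iff `σ ∈ N`, and `X ∈ k(y)`).

One Lean task for each `def XStmt : Prop`: file `MP_7f581e_U/H/X.lean`, import this file,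
`namespace MP7U`, `theorem hX : XStmt` (statements which are used are hypotheses, in the order of
the docstring: `theorem hX (h1 : AStmt) (h2 : BStmt) : XStmt`).
-/

set_option autoImplicit false

namespace MP7U

open Polynomial

/-- `Γ` is the Galois group of a regular extension of `k(X)`, and the fixed field of `N` is a
rational function field `k(y)`. -/
def HHx (k : Type) [Field k] (Γ : Type) [Group Γ] (N : Subgroup Γ) : Prop :=
  ∃ (M : Γ → Matrix (Fin 2) (Fin 2) k) (P Q : k[X]), IsAH M ∧ (∀ σ, Sc (M σ) ↔ σ ∈ N) ∧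
    HHm k Γ M P Q

/-- **LuX.** (80 lines)  Lueroth for the fixed field of a finite group.

*Proof.*  The fixed field `F` of `act(Δ)` in `R = RatFunc k` is an intermediate field of `R / k` with `[R : F] = card Δ` finite (Artin; `IntermediateField.fixedField`, or `FixedPoints`), so `F ≠ ⊥` (`R / k` has infinite degree).  `RatFunc.Luroth.eq_adjoin_generator` (Mathlib, `FieldTheory/RatFunc/Luroth.lean`):
`F = k⟮f⟯`, `f` the generator, which is not a constant. -/
def LuXStmt : Prop :=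
  ∀ (k : Type) [Field k] (Δ : Type) [Group Δ] [Finite Δ] (act : Δ →* (RatFunc k ≃ₐ[k] RatFunc k)),
    ∃ f : RatFunc k, (∀ c : k, f ≠ RatFunc.C c) ∧
      ∀ z : RatFunc k, (∀ σ, act σ z = z) ↔ z ∈ IntermediateField.adjoin k {f}

/-- **AuX.** (100 lines)  Generators of `k(f)` are Moebius transforms of `f`.

*Proof.*  `f` is transcendental over `k` (not constant), so `k⟮f⟯ ≅ RatFunc k`, `f ↔ X` (`IntermediateField.algEquiv..`, or the injective map `RatFunc k → RatFunc k`, `X ↦ f`, with range `k⟮f⟯`).  `g` corresponds to `G ∈ RatFunc k` with `k⟮G⟯ = ⊤` (because `f ∈ k⟮g⟯`), so `max (natDegree G.num) (natDegree G.denom) = finrank = 1`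
(`RatFunc.finrank_eq_max_natDegree`), `G = (a X + b) / (c X + d)`; `a d - b c ≠ 0` because `G` is not constant (numerator and denominator are coprime).  Substitute `f`: `c f + d ≠ 0` (image of the nonzero denominator). -/
def AuXStmt : Prop :=
  ∀ (k : Type) [Field k] (f g : RatFunc k), (∀ c : k, f ≠ RatFunc.C c) →
    g ∈ IntermediateField.adjoin k {f} → f ∈ IntermediateField.adjoin k {g} →
    ∃ M : Matrix (Fin 2) (Fin 2) k, M.det ≠ 0 ∧ Mob (algebraMap k (RatFunc k)) M f g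

/-- **BsX.** (250 lines)  Uses MbG (block G), LuX, AuX in this order.  The base case: a group of Moebius transformations.

*Proof.*  `R = RatFunc k`; `act : B → (R ≃ₐ[k] R)` from MbG, injective.  LuX for `B`: `R^B = k⟮f⟯`; LuX for `N_B` (`act` restricted): `R^(N_B) = k⟮y⟯`.  `L = R` with the algebra structure `j : RatFunc k → R`, `X ↦ f`, identity on the constants (`f` is transcendental: not constant); the range of `j` is
`k⟮f⟯ = R^B`.  So `act σ` is linear for this structure, `act : B → (L ≃ₐ[RatFunc k] L)` is injective, and `L / RatFunc k` is a Galois extension with group `act(B)`: by Artin's theorem `R / R^B` is Galois of degree `card B` (e.g. `FixedPoints` or `IntermediateField.fixedField`; then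
`finrank = card B`, `IsGalois.of_card_aut_eq_finrank`, `act` is bijective by counting).  Let `σ ∈ B`.  `act σ` maps `R^(N_B)` to itself (`N_B` is normal), so `act σ y ∈ k⟮y⟯`, and also `y = act σ (act σ⁻¹ y) ∈ k⟮act σ y⟯`.  AuX: `M_σ` with `M_σ(y) = act σ y`.  `y` is transcendental over `k`, so a matrix `N` with `N(y)` defined is determined
by `N(y)` up to a scalar factor; `M_(σ τ)(y) = act σ (M_τ(y)) = M_τ(act σ y) = M_τ(M_σ(y)) = (M_τ M_σ)(y)`, so `IsAH M`.  `Sc (M_σ)` iff `act σ y = y` iff `act σ` is trivial on `k⟮y⟯ = R^(N_B)` iff `σ ∈ N_B` (Galois correspondence: `IntermediateField.fixingSubgroup_fixedField`).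
`f ∈ R^B ⊆ R^(N_B) = k⟮y⟯`, so `f = P(y) / Q(y)` with `P, Q ∈ k[Y]`, `Q(y) ≠ 0` (`IntermediateField.mem_adjoin_simple_iff`).  `cstL k L` is the map `C : k → R` (`j (C c) = C c`).  `RegL k L`: elements of `R` algebraic over `k` are constant (see `F/BasF.lean`). -/
def BsXStmt : Prop :=
  ∀ (k : Type) [Field k] (B : Type) [Group B] [Finite B] (M₁ : B → Matrix (Fin 2) (Fin 2) k),
    IsAH M₁ → (∀ σ, Sc (M₁ σ) → σ = 1) → ∀ N : Subgroup B, N.Normal → HHx k B N

/-- **EtX.** (80 lines)  Extension of the matrices from `H` to `Γ = H N`.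

*Proof.*  `H N = Γ` (`N` is normal, `g ∈ N`, `H ⊔ zpowers g = ⊤`, so `H ⊔ N = ⊤`; `Subgroup.mul_normal`).  For `σ ∈ Γ` choose `h_σ ∈ H` with `h_σ⁻¹ σ ∈ N`; for `σ ∈ H` choose `h_σ = σ`.  `M σ = M₀ (h_σ)`.  If `h, h' ∈ H` are congruent modulo `N` then `h = h' m`, `m ∈ N ∩ H`, and `M₀ h = c M₀ m M₀ h'` is a multiple of `M₀ h'`.
So `M (σ τ) = M₀ (h_(σ τ)) ∼ M₀ (h_σ h_τ) ∼ M₀ (h_τ) M₀ (h_σ)`.  `M σ` is scalar iff `h_σ ∈ N` iff `σ ∈ N`. -/
def EtXStmt : Prop :=
  ∀ (k : Type) [Field k] (Γ : Type) [Group Γ] (N H : Subgroup Γ), N.Normal → H ⊔ N = ⊤ →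
    ∀ M₀ : H → Matrix (Fin 2) (Fin 2) k, IsAH M₀ → (∀ h : H, Sc (M₀ h) ↔ (h : Γ) ∈ N) →
    ∃ M : Γ → Matrix (Fin 2) (Fin 2) k, IsAH M ∧ (∀ σ, Sc (M σ) ↔ σ ∈ N) ∧ ∀ h : H, M h = M₀ h

/-- **SpX.** (80 lines)  Uses SpG (block G).  Specialization.

*Proof.*  `M, P, Q` from `HHx K`, `S₀` from SpG.  `S` contains `S₀`, the inverses of the determinants of the `M σ`, for all `σ, τ` the scalar `c` with `M (σ τ) = c (M τ M σ)` and its inverse, and for every `σ ∉ N` the inverse of a nonzero element among `M σ 0 1`, `M σ 1 0`, `M σ 0 0 - M σ 1 1` (there is one because `M σ` is not scalar).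
Given `φ : cl S → k'` apply SpG to the restriction of `φ` to `cl S₀`, `M' σ i j = φ (M σ i j)`, `P' = ` the polynomial with coefficients `φ (P.coeff i)`, and `Q'`.  `IsAH M'` and `Sc (M' σ) ↔ σ ∈ N`: determinants and the chosen elements are mapped to units, scalar matrices to scalar matrices. -/
def SpXStmt : Prop :=
  ∀ (K : Type) [Field K] [CharZero K] (Γ : Type) [Group Γ] [Finite Γ] (N : Subgroup Γ),
    HHx K Γ N → ∃ S : Finset K, ∀ (k' : Type) [Field k'] (_ : cl S →+* k'), HHx k' Γ N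

/-- **StX.** (100 lines)  Uses SlG, PtG (block G), AllC (block C), SpX, EtX in this order.  One step.

*Proof.*  `M₀, P, Q` from `HHx k H`; EtX: `M` with `M h = M₀ h`, so `HHm k H (fun h => M h) P Q`.  SlG, PtG: `HHm (LaurentSeries k) Γ (C M) (C P) (C Q)`, and `IsAH (C M)`, `Sc ((M σ).map C) ↔ Sc (M σ)`, so `HHx (LaurentSeries k) Γ N`.  SpX: `S`, AllC: `cl S → k`. -/
def StXStmt : Prop :=
  ∀ (k : Type) [Field k] [CharZero k], PAC k → ∀ (Γ : Type) [Group Γ] [Finite Γ]
    (N H : Subgroup Γ) (g : Γ), N.Normal → g ^ 2 = 1 → g ≠ 1 → g ∈ N →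
    H ⊔ Subgroup.zpowers g = ⊤ → HHx k H (N.subgroupOf H) → HHx k Γ N

/-- **CnX.** (20 lines)  Transport along an isomorphism. -/
def CnXStmt : Prop :=
  ∀ (k : Type) [Field k] (Γ Γ' : Type) [Group Γ] [Group Γ'] (f : Γ' ≃* Γ) (N : Subgroup Γ),
    HHx k Γ N → HHx k Γ' (N.comap f.toMonoidHom)

/-- **IcX.** (120 lines)  Uses CnX, StX.  Induction over a list of involutions; as IncF (`F/IncF.lean`).

*Proof.*  As IncF; `N.subgroupOf H'` is normal in `H'`; for `H ≤ H'` the subgroup `(N.subgroupOf H').subgroupOf (H.subgroupOf H')` corresponds to `N.subgroupOf H` under `H.subgroupOf H' ≃* H`. -/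
def IcXStmt : Prop :=
  ∀ (k : Type) [Field k] [CharZero k], PAC k → ∀ (Γ : Type) [Group Γ] [Finite Γ]
    (N H₀ : Subgroup Γ), N.Normal → HHx k H₀ (N.subgroupOf H₀) → ∀ l : List Γ,
    (∀ g ∈ l, g ^ 2 = 1 ∧ g ∈ N) →
    HHx k (H₀ ⊔ Subgroup.closure {g | g ∈ l} : Subgroup Γ)
      (N.subgroupOf (H₀ ⊔ Subgroup.closure {g | g ∈ l}))

/-- **UmX.** (120 lines)  Uses LgD (block D).  Matrices over the ultraproduct.

*Proof.*  `M' σ i j = π (n ↦ M n σ i j)`.  `π x ≠ 0` if all `x n ≠ 0` (`x x⁻¹ = 1`).  IsAH: `det`, `mul` coordinatewise (choose the scalars `c n`, `c = π c`).  If `M' σ = c • 1` then the off-diagonal entries and the difference of the diagonal entries are mapped to `0`, so by LgD ((3), (4), (6)) there is `n` for which they vanish, so `M n σ` is scalar and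
`σ = 1`. -/
def UmXStmt : Prop :=
  ∀ (p : ℕ → ℕ) [∀ n, Fact (p n).Prime] (K : Type) [Field K] (π : (∀ n, ZMod (p n)) →+* K),
    IsUP p K π → ∀ (B : Type) [Group B] [Finite B]
    (M : ∀ n, B → Matrix (Fin 2) (Fin 2) (ZMod (p n))), (∀ n, IsAH (M n)) →
    (∀ n σ, Sc (M n σ) → σ = 1) →
    ∃ M' : B → Matrix (Fin 2) (Fin 2) K, IsAH M' ∧ ∀ σ, Sc (M' σ) → σ = 1

/-- **UnX.** (120 lines)  Uses ExD, ChD, PacD, LgD, FinD (block D), BsX, SpX, CnX, IcX, UmX in this order.  The uniform bound.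

*Proof.*  Suppose that there is no `n₀`: for every `n` there are a prime `p n > n` and `M n : H₀ → ...` with the hypotheses such that `HHx (ZMod (p n)) Γ N` is false.  ExD: `K`, `π`; `CharZero K`, `PAC K`.  UmX: `M'`.  BsX: `HHx K H₀ (N.subgroupOf H₀)`.  IcX with a list `l` of all `g ∈ N` with `g² = 1`, and `H₀ ⊔ closure l = ⊤` with
CnX: `HHx K Γ N`.  SpX: `S`; FinD: `U`, `φ`; `U` is large, so it has an element `n` (LgD (6)); SpX for `φ n` gives `HHx (ZMod (p n)) Γ N`, a contradiction. -/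
def UnXStmt : Prop :=
  ∀ (Γ : Type) [Group Γ] [Finite Γ] (N H₀ : Subgroup Γ), N.Normal →
    H₀ ⊔ Subgroup.closure {g | g ^ 2 = 1 ∧ g ∈ N} = ⊤ →
    ∃ n₀ : ℕ, ∀ (p : ℕ) [Fact p.Prime], n₀ < p →
      (∃ M₁ : H₀ → Matrix (Fin 2) (Fin 2) (ZMod p), IsAH M₁ ∧ ∀ σ, Sc (M₁ σ) → σ = 1) →
      HHx (ZMod p) Γ N

/-- **PgX.** (80 lines)  Injective homomorphisms to `PGL₂` give matrices.

*Proof.*  `M σ` is the matrix of a representative in `GL₂(k)` of `ρ(σ⁻¹)` (`Quotient.out`).  `ρ((σ τ)⁻¹) = ρ(τ⁻¹) ρ(σ⁻¹)`, so `M(σ τ)` is `M(τ) M(σ)` times an element of the center of `GL₂(k)`, which is a nonzero scalar matrix (commute with `1 + E₁₂`, `1 + E₂₁`; or Mathlib).  If `M σ` is scalar then its class is `1`, so `σ = 1`. -/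
def PgXStmt : Prop :=
  ∀ (k : Type) [Field k] (B : Type) [Group B] (ρ : B →* PGL2 k), Function.Injective ρ →
    ∃ M : B → Matrix (Fin 2) (Fin 2) k, IsAH M ∧ ∀ σ, Sc (M σ) → σ = 1

/-- **GaX.** (150 lines)  Uses UnX, PgX, InvF (block F), ExG (block G) in this order.  `(S, A)` has a GA realisation over `𝔽_p(X)` for large `p` for which `B`
is isomorphic to a subgroup of `PGL₂(𝔽_p)`, `A = Inn S · B`.

*Proof.*  `Γ = A` (finite), `N` the subgroup of the inner automorphisms in `A` (normal), `H₀ = B.subgroupOf A ≅ B`.  `H₀ ⊔ closure {g | g² = 1, g ∈ N} = ⊤` because the conjugations by `s ∈ S`, `s² = 1`, generate `Inn S` (InvF), and `Inn S ⊔ B = A`.  PgX and UnX: `HHx (ZMod p) A N`; ExG gives the field for `HasGAOver`. -/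
def GaXStmt : Prop :=
  ∀ (S : Type) [Group S] [Finite S] [IsSimpleGroup S], (∃ a b : S, a * b ≠ b * a) →
    (∃ g : S, g ≠ 1 ∧ g ^ 2 = 1) → ∀ A B : Subgroup (MulAut S),
    (MulAut.conj (G := S)).range ⊔ B = A →
    ∃ n₀ : ℕ, ∀ (p : ℕ) [Fact p.Prime], n₀ < p →
      (∃ ρ : B →* PGL2 (ZMod p), Function.Injective ρ) → MP7K.HasGAOver (ZMod p) S A

end MP7U
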