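import Pool.Agent.Lib.MP_7f581e_U.H.Spec1

/-!
# C41 (MP_7f581e_nt), U/H/UnX: the uniform bound
-/

set_option autoImplicit false

namespace MP7U

open Polynomial

theorem hUnX (hExD : ExDStmt) (hChD : ChDStmt) (hPacD : PacDStmt) (hLgD : LgDStmt)
    (hFinD : FinDStmt) (hBsX : BsXStmt) (hSpX : SpXStmt) (hCnX : CnXStmt) (hIcX : IcXStmt)
    (hUmX : UmXStmt) : UnXStmt := by
  classical
  intro Γ _ _ N H₀ hN htop
  by_contra hcon
  have h1 : ∀ n₀ : ℕ, ∃ (p : ℕ) (_ : Fact p.Prime), n₀ < p ∧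
      (∃ M₁ : H₀ → Matrix (Fin 2) (Fin 2) (ZMod p), IsAH M₁ ∧ ∀ σ, Sc (M₁ σ) → σ = 1) ∧
      ¬ HHx (ZMod p) Γ N := by
    intro n₀
    by_contra h2
    apply hcon
    refine ⟨n₀, fun p hp hlt hM => ?_⟩
    by_contra h3
    exact h2 ⟨p, hp, hlt, hM, h3⟩
  choose p hp hlt hM hno using h1
  choose M hM1 hM2 using hM
  obtain ⟨K, hK, π, hup⟩ := hExD p fun n => (hp n).out
  have hch : CharZero K := hChD p K π hup hlt
  have hpac : PAC K := hPacD p K π hup hlt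
  obtain ⟨M', hM'1, hM'2⟩ := hUmX p K π hup H₀ M hM1 hM2
  have hb : HHx K H₀ (N.subgroupOf H₀) := hBsX K H₀ M' hM'1 hM'2 _ (hN.subgroupOf H₀)
  obtain ⟨l, hl⟩ : ∃ l : List Γ, ∀ g, g ∈ l ↔ g ^ 2 = 1 ∧ g ∈ N := by
    refine ⟨(Set.toFinite {g : Γ | g ^ 2 = 1 ∧ g ∈ N}).toFinset.toList, fun g => ?_⟩
    rw [Finset.mem_toList, Set.Finite.mem_toFinset]
    rfl
  have h2 := hIcX K hpac Γ N H₀ hN hb l fun g hg => (hl g).1 hg
  have h3 : (H₀ ⊔ Subgroup.closure {g | g ∈ l} : Subgroup Γ) = ⊤ := by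
    rw [← htop]
    congr 2
    ext g
    exact hl g
  have h4 := hCnX K _ Γ ((MulEquiv.subgroupCongr h3).trans Subgroup.topEquiv).symm _ h2
  have h5 : ((N.subgroupOf (H₀ ⊔ Subgroup.closure {g | g ∈ l} : Subgroup Γ)).comap
      ((MulEquiv.subgroupCongr h3).trans Subgroup.topEquiv).symm.toMonoidHom) = N := by
    ext g
    rfl
  rw [h5] at h4
  obtain ⟨S, hS⟩ := hSpX K Γ N h4
  obtain ⟨U, φ, hU, -⟩ := hFinD p K π hup S
  obtain ⟨n, hn⟩ := (hLgD p K π hup).2.2.2.2.2 U hU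
  exact hno n (hS (ZMod (p n)) (φ n hn))

end MP7U
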